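import Mathlib

set_option autoImplicit false

/-!
# The fourteen algebraic methods producing Costas permutations

Permutations of `{1, ..., n}` are represented by functions `f : ℕ → ℕ`; only the values
`f 1, ..., f n` matter.
-/

namespace Pool.Agent.TH436

/-- `f` restricts to a Costas permutation of order `n`: it is a bijection of `{1,...,n}` and the
vectors `(i - j, f i - f j)`, `1 ≤ j < i ≤ n`, are pairwise distinct in `ℤ × ℤ`. -/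
def IsCostas (n : ℕ) (f : ℕ → ℕ) : Prop :=
  Set.BijOn f (Set.Icc 1 n) (Set.Icc 1 n) ∧
  ∀ i j k l : ℕ, 1 ≤ j → j < i → i ≤ n → 1 ≤ l → l < k → k ≤ n →
    (((i : ℤ) - j, (f i : ℤ) - f j) : ℤ × ℤ) = ((k : ℤ) - l, (f k : ℤ) - f l) → i = k ∧ j = l

/-- The exponential Welch permutation `W_1^exp(p, α, c)`: `p` is prime, `α` is a primitive root
modulo `p`, `0 ≤ c ≤ p - 2`, and `g i` is the residue of `α ^ (i - 1 + c)` in `{1,...,p-1}`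
for `1 ≤ i ≤ p - 1`. -/
def IsWelch (p : ℕ) (α : ZMod p) (c : ℕ) (g : ℕ → ℕ) : Prop :=
  p.Prime ∧ orderOf α = p - 1 ∧ c ≤ p - 2 ∧
    ∀ i, 1 ≤ i → i ≤ p - 1 → g i = (α ^ (i - 1 + c)).val

/-- The Golomb permutation `G_2(q, α, β)`, `q = |F|`: `α, β` are primitive elements of `F` and
`g : {1,...,q-2} → {1,...,q-2}` satisfies `α ^ (g i) + β ^ i = 1`. -/
def IsGolomb {F : Type} [Field F] [Fintype F] (α β : F) (g : ℕ → ℕ) : Prop :=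
  orderOf α = Fintype.card F - 1 ∧ orderOf β = Fintype.card F - 1 ∧
    ∀ i, 1 ≤ i → i ≤ Fintype.card F - 2 →
      1 ≤ g i ∧ g i ≤ Fintype.card F - 2 ∧ α ^ (g i) + β ^ i = 1

/-- The names of the fourteen methods. -/
inductive Method
  | W0 | W1 | W2 | W3 | RW0 | G0 | G1 | G2 | G3 | G4 | G4star | G4starstar | G5star | RG1

/-- `W_1`: exponential Welch permutations and their inverses. -/
def ProducesW1 (n : ℕ) (f : ℕ → ℕ) : Prop :=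
  ∃ (p : ℕ) (α : ZMod p) (c : ℕ) (g : ℕ → ℕ), IsWelch p α c g ∧ n = p - 1 ∧
    ((∀ i, 1 ≤ i → i ≤ n → f i = g i) ∨ (∀ i, 1 ≤ i → i ≤ n → f (g i) = i))

/-- `W_2`: `f i = g (i + 1) - 1` on `{1,...,p-2}`, where `c = 0`. -/
def ProducesW2 (n : ℕ) (f : ℕ → ℕ) : Prop :=
  ∃ (p : ℕ) (α : ZMod p) (g : ℕ → ℕ), IsWelch p α 0 g ∧ n = p - 2 ∧
    ∀ i, 1 ≤ i → i ≤ n → (f i : ℤ) = (g (i + 1) : ℤ) - 1

/-- `W_3`: `f i = g (i + 2) - 2` on `{1,...,p-3}`, where `α = 2` and `c = 0`. -/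
def ProducesW3 (n : ℕ) (f : ℕ → ℕ) : Prop :=
  ∃ (p : ℕ) (g : ℕ → ℕ), IsWelch p (2 : ZMod p) 0 g ∧ n = p - 3 ∧
    ∀ i, 1 ≤ i → i ≤ n → (f i : ℤ) = (g (i + 2) : ℤ) - 2

/-- `W_0`: `f 1 = 1`, `f i = g (i - 1) + 1` for `2 ≤ i ≤ p`. -/
def ProducesW0 (n : ℕ) (f : ℕ → ℕ) : Prop :=
  ∃ (p : ℕ) (α : ZMod p) (c : ℕ) (g : ℕ → ℕ), IsWelch p α c g ∧ n = p ∧
    f 1 = 1 ∧ ∀ i, 2 ≤ i → i ≤ p → f i = g (i - 1) + 1

/-- `RW_0`: `f i = ((g i + t - 1) mod p) + 1` for `1 ≤ i ≤ p - 1`, `f p = t`, `2 ≤ t ≤ p - 1`. -/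
def ProducesRW0 (n : ℕ) (f : ℕ → ℕ) : Prop :=
  ∃ (p : ℕ) (α : ZMod p) (c : ℕ) (g : ℕ → ℕ) (t : ℕ), IsWelch p α c g ∧ n = p ∧
    2 ≤ t ∧ t ≤ p - 1 ∧ (∀ i, 1 ≤ i → i ≤ p - 1 → f i = (g i + t - 1) % p + 1) ∧ f p = t

/-- `G_2`. -/
def ProducesG2 (n : ℕ) (f : ℕ → ℕ) : Prop :=
  ∃ (F : Type) (_ : Field F) (_ : Fintype F) (α β : F) (g : ℕ → ℕ), IsGolomb α β g ∧
    n = Fintype.card F - 2 ∧ ∀ i, 1 ≤ i → i ≤ n → f i = g i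

/-- `G_3`: `α + β = 1`, `f i = g (i + 1) - 1` on `{1,...,q-3}`. -/
def ProducesG3 (n : ℕ) (f : ℕ → ℕ) : Prop :=
  ∃ (F : Type) (_ : Field F) (_ : Fintype F) (α β : F) (g : ℕ → ℕ), IsGolomb α β g ∧
    α + β = 1 ∧ n = Fintype.card F - 3 ∧
    ∀ i, 1 ≤ i → i ≤ n → (f i : ℤ) = (g (i + 1) : ℤ) - 1

/-- `G_4`: `q` is a power of `2`, `α + β = 1`, `f i = g (i + 2) - 2` on `{1,...,q-4}`. -/
def ProducesG4 (n : ℕ) (f : ℕ → ℕ) : Prop :=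
  ∃ (F : Type) (_ : Field F) (_ : Fintype F) (α β : F) (g : ℕ → ℕ), IsGolomb α β g ∧
    ringChar F = 2 ∧ α + β = 1 ∧ n = Fintype.card F - 4 ∧
    ∀ i, 1 ≤ i → i ≤ n → (f i : ℤ) = (g (i + 2) : ℤ) - 2

/-- `G_4^*`: `q` is odd, `α + β = 1`, `α ^ 2 + β ^ (-1) = 1`, `f i = g (i + 2) - 1` on
`{1,...,q-4}`. -/
def ProducesG4star (n : ℕ) (f : ℕ → ℕ) : Prop :=
  ∃ (F : Type) (_ : Field F) (_ : Fintype F) (α β : F) (g : ℕ → ℕ), IsGolomb α β g ∧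
    2 < ringChar F ∧ α + β = 1 ∧ α ^ 2 + β⁻¹ = 1 ∧ n = Fintype.card F - 4 ∧
    ∀ i, 1 ≤ i → i ≤ n → (f i : ℤ) = (g (i + 2) : ℤ) - 1

/-- `G_4^**`: `q` is odd, `β = α`, `α + α ^ 2 = 1`, `f i = g (i + 2) - 2` on `{1,...,q-4}`. -/
def ProducesG4starstar (n : ℕ) (f : ℕ → ℕ) : Prop :=
  ∃ (F : Type) (_ : Field F) (_ : Fintype F) (α β : F) (g : ℕ → ℕ), IsGolomb α β g ∧
    2 < ringChar F ∧ β = α ∧ α + α ^ 2 = 1 ∧ n = Fintype.card F - 4 ∧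
    ∀ i, 1 ≤ i → i ≤ n → (f i : ℤ) = (g (i + 2) : ℤ) - 2

/-- `G_5^*`: `α + β = 1`, `α ^ 2 + β ^ (-1) = 1`, `f i = g (i + 3) - 3` on `{1,...,q-5}`. -/
def ProducesG5star (n : ℕ) (f : ℕ → ℕ) : Prop :=
  ∃ (F : Type) (_ : Field F) (_ : Fintype F) (α β : F) (g : ℕ → ℕ), IsGolomb α β g ∧
    α + β = 1 ∧ α ^ 2 + β⁻¹ = 1 ∧ n = Fintype.card F - 5 ∧
    ∀ i, 1 ≤ i → i ≤ n → (f i : ℤ) = (g (i + 3) : ℤ) - 3

/-- `G_1`: `f 1 = 1`, `f i = g (i - 1) + 1` for `2 ≤ i ≤ q - 1`. -/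
def ProducesG1 (n : ℕ) (f : ℕ → ℕ) : Prop :=
  ∃ (F : Type) (_ : Field F) (_ : Fintype F) (α β : F) (g : ℕ → ℕ), IsGolomb α β g ∧
    n = Fintype.card F - 1 ∧ f 1 = 1 ∧
    ∀ i, 2 ≤ i → i ≤ Fintype.card F - 1 → f i = g (i - 1) + 1

/-- `G_0`: as `G_1`, and also `f q = q`. -/
def ProducesG0 (n : ℕ) (f : ℕ → ℕ) : Prop :=
  ∃ (F : Type) (_ : Field F) (_ : Fintype F) (α β : F) (g : ℕ → ℕ), IsGolomb α β g ∧
    n = Fintype.card F ∧ f 1 = 1 ∧ f (Fintype.card F) = Fintype.card F ∧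
    ∀ i, 2 ≤ i → i ≤ Fintype.card F - 1 → f i = g (i - 1) + 1

/-- `RG_1`: `2 ≤ t₁, t₂ ≤ q - 2`, `f t₁ = t₂` and
`f i = ((g (((i - t₁ - 1) mod (q - 1)) + 1) + t₂ - 1) mod (q - 1)) + 1` for the other `i`
in `{1,...,q-1}`. -/
def ProducesRG1 (n : ℕ) (f : ℕ → ℕ) : Prop :=
  ∃ (F : Type) (_ : Field F) (_ : Fintype F) (α β : F) (g : ℕ → ℕ) (t₁ t₂ : ℕ),
    IsGolomb α β g ∧ n = Fintype.card F - 1 ∧
    2 ≤ t₁ ∧ t₁ ≤ Fintype.card F - 2 ∧ 2 ≤ t₂ ∧ t₂ ≤ Fintype.card F - 2 ∧ f t₁ = t₂ ∧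
    ∀ i, 1 ≤ i → i ≤ Fintype.card F - 1 → i ≠ t₁ →
      (f i : ℤ) = ((g ((((i : ℤ) - t₁ - 1) % ((Fintype.card F : ℤ) - 1)).toNat + 1) : ℤ) + t₂ - 1)
        % ((Fintype.card F : ℤ) - 1) + 1

/-- `Produces M n f`: the method `M` produces the permutation `f` of `{1,...,n}`. (For
`W_0, RW_0, G_0, G_1, RG_1` this is only meant for Costas `f`; the statements below always
assume `IsCostas n f` as well.) -/
def Produces : Method → ℕ → (ℕ → ℕ) → Prop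
  | .W0 => ProducesW0
  | .W1 => ProducesW1
  | .W2 => ProducesW2
  | .W3 => ProducesW3
  | .RW0 => ProducesRW0
  | .G0 => ProducesG0
  | .G1 => ProducesG1
  | .G2 => ProducesG2
  | .G3 => ProducesG3
  | .G4 => ProducesG4
  | .G4star => ProducesG4star
  | .G4starstar => ProducesG4starstar
  | .G5star => ProducesG5star
  | .RG1 => ProducesRG1

end Pool.Agent.TH436
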