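import Mathlib

set_option autoImplicit false

/-!
# Explicit finite fields with 8 and 9 elements
-/

namespace Pool.Agent.TH436

/-- The field with nine elements: `a + b i`, `i ^ 2 = -1`, over `ZMod 3`. -/
structure F9 where
  a : ZMod 3
  b : ZMod 3
  deriving DecidableEq, Fintype

namespace F9

instance : Zero F9 := ⟨⟨0, 0⟩⟩
instance : One F9 := ⟨⟨1, 0⟩⟩
instance : Add F9 := ⟨fun x y => ⟨x.a + y.a, x.b + y.b⟩⟩
instance : Neg F9 := ⟨fun x => ⟨-x.a, -x.b⟩⟩
instance : Mul F9 := ⟨fun x y => ⟨x.a * y.a - x.b * y.b, x.a * y.b + x.b * y.a⟩⟩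

theorem ext' {x y : F9} (h1 : x.a = y.a) (h2 : x.b = y.b) : x = y := by
  cases x; cases y; simp_all

instance : CommRing F9 where
  add_assoc x y z := ext' (add_assoc _ _ _) (add_assoc _ _ _)
  zero_add x := ext' (zero_add _) (zero_add _)
  add_zero x := ext' (add_zero _) (add_zero _)
  add_comm x y := ext' (add_comm _ _) (add_comm _ _)
  neg_add_cancel x := ext' (neg_add_cancel _) (neg_add_cancel _)
  nsmul := nsmulRec
  zsmul := zsmulRec
  mul_assoc x y z := ext'
    (by show (x.a * y.a - x.b * y.b) * z.a - (x.a * y.b + x.b * y.a) * z.b =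
          x.a * (y.a * z.a - y.b * z.b) - x.b * (y.a * z.b + y.b * z.a); ring)
    (by show (x.a * y.a - x.b * y.b) * z.b + (x.a * y.b + x.b * y.a) * z.a =
          x.a * (y.a * z.b + y.b * z.a) + x.b * (y.a * z.a - y.b * z.b); ring)
  one_mul x := ext'
    (by show (1 : ZMod 3) * x.a - 0 * x.b = x.a; ring)
    (by show (1 : ZMod 3) * x.b + 0 * x.a = x.b; ring)
  mul_one x := ext'
    (by show x.a * (1 : ZMod 3) - x.b * 0 = x.a; ring)
    (by show x.a * (0 : ZMod 3) + x.b * 1 = x.b; ring)
  left_distrib x y z := ext'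
    (by show x.a * (y.a + z.a) - x.b * (y.b + z.b) =
          (x.a * y.a - x.b * y.b) + (x.a * z.a - x.b * z.b); ring)
    (by show x.a * (y.b + z.b) + x.b * (y.a + z.a) =
          (x.a * y.b + x.b * y.a) + (x.a * z.b + x.b * z.a); ring)
  right_distrib x y z := ext'
    (by show (x.a + y.a) * z.a - (x.b + y.b) * z.b =
          (x.a * z.a - x.b * z.b) + (y.a * z.a - y.b * z.b); ring)
    (by show (x.a + y.a) * z.b + (x.b + y.b) * z.a =
          (x.a * z.b + x.b * z.a) + (y.a * z.b + y.b * z.a); ring)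
  zero_mul x := ext'
    (by show (0 : ZMod 3) * x.a - 0 * x.b = 0; ring)
    (by show (0 : ZMod 3) * x.b + 0 * x.a = 0; ring)
  mul_zero x := ext'
    (by show x.a * (0 : ZMod 3) - x.b * 0 = 0; ring)
    (by show x.a * (0 : ZMod 3) + x.b * 0 = 0; ring)
  mul_comm x y := ext'
    (by show x.a * y.a - x.b * y.b = y.a * x.a - y.b * x.b; ring)
    (by show x.a * y.b + x.b * y.a = y.a * x.b + y.b * x.a; ring)

instance : Nontrivial F9 := ⟨0, 1, by decide⟩

theorem mul_pow_seven : ∀ x : F9, x ≠ 0 → x * x ^ 7 = 1 := by decide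

noncomputable instance : Field F9 :=
  { (inferInstance : CommRing F9), (inferInstance : Nontrivial F9) with
    inv := fun x => x ^ 7
    mul_inv_cancel := mul_pow_seven
    inv_zero := by decide
    nnqsmul := _
    nnqsmul_def := fun _ _ => rfl
    qsmul := _
    qsmul_def := fun _ _ => rfl }

theorem card : Fintype.card F9 = 9 := by decide

end F9

/-- The field with eight elements: `a + b x + c x ^ 2`, `x ^ 3 = x + 1`, over `ZMod 2`. -/
structure F8 where
  a : ZMod 2
  b : ZMod 2
  c : ZMod 2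
  deriving DecidableEq, Fintype

namespace F8

instance : Zero F8 := ⟨⟨0, 0, 0⟩⟩
instance : One F8 := ⟨⟨1, 0, 0⟩⟩
instance : Add F8 := ⟨fun x y => ⟨x.a + y.a, x.b + y.b, x.c + y.c⟩⟩
instance : Neg F8 := ⟨fun x => ⟨-x.a, -x.b, -x.c⟩⟩
instance : Mul F8 := ⟨fun x y => ⟨x.a * y.a + (x.b * y.c + x.c * y.b),
  (x.a * y.b + x.b * y.a) + (x.b * y.c + x.c * y.b) + x.c * y.c,
  (x.a * y.c + x.b * y.b + x.c * y.a) + x.c * y.c⟩⟩

theorem ext' {x y : F8} (h1 : x.a = y.a) (h2 : x.b = y.b) (h3 : x.c = y.c) : x = y := by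
  cases x; cases y; simp_all

theorem mul_assoc' : ∀ x y z : F8, x * y * z = x * (y * z) := by decide
theorem mul_comm' : ∀ x y : F8, x * y = y * x := by decide
theorem one_mul' : ∀ x : F8, 1 * x = x := by decide
theorem zero_mul' : ∀ x : F8, 0 * x = 0 := by decide
theorem distrib' : ∀ x y z : F8, x * (y + z) = x * y + x * z := by decide

instance : CommRing F8 where
  add_assoc x y z := ext' (add_assoc _ _ _) (add_assoc _ _ _) (add_assoc _ _ _)
  zero_add x := ext' (zero_add _) (zero_add _) (zero_add _)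
  add_zero x := ext' (add_zero _) (add_zero _) (add_zero _)
  add_comm x y := ext' (add_comm _ _) (add_comm _ _) (add_comm _ _)
  neg_add_cancel x := ext' (neg_add_cancel _) (neg_add_cancel _) (neg_add_cancel _)
  nsmul := nsmulRec
  zsmul := zsmulRec
  mul_assoc := mul_assoc'
  one_mul := one_mul'
  mul_one x := by rw [mul_comm', one_mul']
  left_distrib := distrib'
  right_distrib x y z := by rw [mul_comm', distrib', mul_comm' z x, mul_comm' z y]
  zero_mul := zero_mul'
  mul_zero x := by rw [mul_comm', zero_mul']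
  mul_comm := mul_comm'

instance : Nontrivial F8 := ⟨0, 1, by decide⟩

theorem mul_pow_six : ∀ x : F8, x ≠ 0 → x * x ^ 6 = 1 := by decide

noncomputable instance : Field F8 :=
  { (inferInstance : CommRing F8), (inferInstance : Nontrivial F8) with
    inv := fun x => x ^ 6
    mul_inv_cancel := mul_pow_six
    inv_zero := by decide
    nnqsmul := _
    nnqsmul_def := fun _ _ => rfl
    qsmul := _
    qsmul_def := fun _ _ => rfl }

theorem card : Fintype.card F8 = 8 := by decide

end F8

end Pool.Agent.TH436
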